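import Pool.Agent.Lib.MP_1ad17e_al_helper12.Defs

/-! T2 of MP_1ad17e_al. -/

namespace E1ad.helper89

open Subgroup
open scoped commutatorElement

theorem fixedPoint {Q : Type*} [Group Q] [Finite Q] (hQ : IsPGroup 2 Q) (α : Q →* Q) (π : Q → Q)
    (hπ : ∀ x y, π (x * y) = π x * α y) (c : ℕ) (hc : Odd c) (hid : ∀ x, π^[c] x = x) :
    ∃ x, π x = x := by
  classical
  have : Fintype Q := Fintype.ofFinite Q
  have : Fact (Nat.Prime 2) := ⟨Nat.prime_two⟩
  induction c using Nat.strong_induction_on generalizing π α with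
  | _ c ih =>
  rcases eq_or_ne c 1 with rfl | hc1
  · exact ⟨1, hid 1⟩
  obtain ⟨p, hp, hpc⟩ := Nat.exists_prime_and_dvd hc1
  obtain ⟨c', rfl⟩ := hpc
  have : Fact p.Prime := ⟨hp⟩
  have hc0 : 0 < c' := by
    rcases Nat.eq_zero_or_pos c' with rfl | h
    · simp at hc
    · exact h
  have hp2 : Odd p := Nat.Odd.of_mul_left hc
  have hc' : Odd c' := Nat.Odd.of_mul_right hc
  have hlt : c' < p * c' := by
    have := hp.one_lt
    nlinarith
  -- iterates of `α`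
  let β : ℕ → (Q →* Q) := fun k => Nat.rec (MonoidHom.id Q) (fun _ b => α.comp b) k
  have hβ : ∀ k x y, π^[k] (x * y) = π^[k] x * β k y := by
    intro k
    induction k with
    | zero => intro x y; rfl
    | succ k ihk =>
      intro x y
      rw [Function.iterate_succ_apply', ihk, hπ, Function.iterate_succ_apply']
      rfl
  obtain ⟨x0, hx0⟩ := ih c' hlt (β p) (π^[p]) (hβ p) hc' (fun x => by
    rw [← Function.iterate_mul]; exact hid x)
  -- the fixed points of `π^[p]`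
  let F := {x : Q // π^[p] x = x}
  let H : Subgroup Q := MonoidHom.eqLocus (β p) (MonoidHom.id Q)
  have hcard : Fintype.card F = Nat.card H := by
    rw [← Nat.card_eq_fintype_card]
    refine Nat.card_congr ?_
    refine ⟨fun x => ⟨x0⁻¹ * x.1, ?_⟩, fun y => ⟨x0 * y.1, ?_⟩, ?_, ?_⟩
    · show β p (x0⁻¹ * x.1) = x0⁻¹ * x.1
      have h1 := hβ p x0 (x0⁻¹ * x.1)
      rw [mul_inv_cancel_left, x.2, hx0] at h1
      rw [eq_comm, inv_mul_eq_iff_eq_mul]; exact h1
    · have h1 : β p y.1 = y.1 := y.2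
      rw [hβ, hx0, h1]
    · intro x; apply Subtype.ext; simp
    · intro x; apply Subtype.ext; simp
  have hH : ∃ k, Nat.card H = 2 ^ k := (hQ.to_subgroup H).exists_card_eq
  have hndvd : ¬ p ∣ Fintype.card F := by
    obtain ⟨k, hk⟩ := hH
    rw [hcard, hk]
    intro h
    have h1 := (Nat.Prime.dvd_of_dvd_pow hp h)
    have h2 := (Nat.prime_dvd_prime_iff_eq hp Nat.prime_two).1 h1
    rw [h2] at hp2
    exact absurd hp2 (by decide)
  have hmem : ∀ k, ∀ x : Q, π^[p] x = x → π^[p] (π^[k] x) = π^[k] x := by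
    intro k x hx
    rw [← Function.iterate_add_apply, add_comm, Function.iterate_add_apply, hx]
  let σ : Equiv.Perm F :=
    ⟨fun x => ⟨π x.1, hmem 1 x.1 x.2⟩, fun x => ⟨π^[p - 1] x.1, hmem (p - 1) x.1 x.2⟩,
      fun x => Subtype.ext (by
        show π^[p - 1] (π x.1) = x.1
        rw [← Function.iterate_succ_apply, Nat.succ_eq_add_one, Nat.sub_add_cancel hp.one_lt.le]
        exact x.2),
      fun x => Subtype.ext (by
        show π (π^[p - 1] x.1) = x.1
        rw [← Function.iterate_succ_apply' π, Nat.succ_eq_add_one,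
          Nat.sub_add_cancel hp.one_lt.le]
        exact x.2)⟩
  have hσk : ∀ k, ∀ x : F, (((σ ^ k) x : F) : Q) = π^[k] x.1 := by
    intro k
    induction k with
    | zero => intro x; rfl
    | succ k ihk =>
      intro x
      rw [pow_succ', Equiv.Perm.mul_apply, Function.iterate_succ_apply', ← ihk]
      rfl
  have hσ : σ ^ p ^ 1 = 1 := by
    rw [pow_one]
    ext x
    rw [hσk]; exact x.2
  obtain ⟨x, hx⟩ := Equiv.Perm.exists_fixed_point_of_prime hndvd hσ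
  exact ⟨x.1, congrArg Subtype.val hx⟩

theorem finite_conj_mem {G : Type*} [Group G] {Q : Subgroup G} [Finite Q] {t : G}
    (h : ∀ q ∈ Q, t * q * t⁻¹ ∈ Q) : ∀ q ∈ Q, t⁻¹ * q * t ∈ Q := by
  intro x hx
  let f : Q → Q := fun q => ⟨t * q * t⁻¹, h q q.2⟩
  have hf : Function.Injective f := by
    intro a b hab
    have : t * (a : G) * t⁻¹ = t * b * t⁻¹ := congrArg Subtype.val hab
    apply Subtype.ext
    simpa using this
  obtain ⟨q, hq⟩ := (Finite.injective_iff_surjective.1 hf) ⟨x, hx⟩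
  have h1 : t * (q : G) * t⁻¹ = x := congrArg Subtype.val hq
  have h2 : t⁻¹ * x * t = q := by rw [← h1]; group
  rw [h2]; exact q.2

theorem Phi_le {G : Type*} [Group G] (Q : Subgroup G) : Phi Q ≤ Q := by
  unfold Phi
  rw [closure_le]
  rintro _ ⟨q, hq, rfl⟩
  exact Q.pow_mem hq 2

theorem Phi_conj {G : Type*} [Group G] (Q : Subgroup G) {k : G} (hk : ∀ q ∈ Q, k * q * k⁻¹ ∈ Q)
    {x : G} (hx : x ∈ Phi Q) : k * x * k⁻¹ ∈ Phi Q := by
  unfold Phi at hx ⊢
  induction hx using closure_induction with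
  | mem x hx =>
    obtain ⟨q, hq, rfl⟩ := hx
    apply Subgroup.subset_closure
    refine ⟨k * q * k⁻¹, hk q hq, ?_⟩
    rw [sq, sq]; group
  | one => simp
  | mul x y _ _ hx hy =>
    have : k * (x * y) * k⁻¹ = (k * x * k⁻¹) * (k * y * k⁻¹) := by group
    rw [this]; exact mul_mem hx hy
  | inv x _ hx =>
    have : k * x⁻¹ * k⁻¹ = (k * x * k⁻¹)⁻¹ := by group
    rw [this]; exact inv_mem hx

/-- if `C ⊔ Phi = ⊤` in a finite 2-group then `C = ⊤` -/
theorem nongen {Q : Type*} [Group Q] [Finite Q] (hQ : IsPGroup 2 Q) (C : Subgroup Q)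
    (h : ∀ q : Q, ∃ x ∈ closure {z : Q | ∃ q : Q, z = q ^ 2}, q * x ∈ C) : C = ⊤ := by
  have : Fact (Nat.Prime 2) := ⟨Nat.prime_two⟩
  by_contra hC
  obtain ⟨m, hm⟩ := hQ.exists_card_eq
  obtain ⟨k, hk⟩ := (hQ.to_subgroup C).exists_card_eq
  have hkm : k < m := by
    have h1 : Nat.card C ∣ Nat.card Q := C.card_subgroup_dvd_card
    rw [hk, hm] at h1
    have h2 := (Nat.pow_dvd_pow_iff_le_right (by norm_num : 1 < 2)).1 h1
    refine lt_of_le_of_ne h2 fun h3 => hC ?_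
    rw [h3, ← hm] at hk
    exact (Subgroup.card_eq_iff_eq_top C).1 hk
  obtain ⟨K, hK, hCK⟩ := Sylow.exists_subgroup_card_pow_prime_le (G := Q) 2 (n := k) (m := m - 1)
    (by rw [hm]; exact pow_dvd_pow 2 (by omega)) C hk (by omega)
  have hidx : K.index = 2 := by
    have h1 := K.card_mul_index
    rw [hK, hm] at h1
    have h2 : 2 ^ m = 2 ^ (m - 1) * 2 := by rw [← pow_succ]; congr 1; omega
    rw [h2] at h1
    exact Nat.eq_of_mul_eq_mul_left (by positivity) h1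
  have hΦ : closure {z : Q | ∃ q : Q, z = q ^ 2} ≤ K := by
    rw [closure_le]
    rintro _ ⟨q, rfl⟩
    exact sq_mem_of_index_two hidx q
  have : K = ⊤ := by
    rw [eq_top_iff]
    intro q _
    obtain ⟨x, hx, hqx⟩ := h q
    have := K.mul_mem (hCK hqx) (K.inv_mem (hΦ hx))
    simpa using this
  rw [this, index_top] at hidx
  omega

theorem coprimeFrattini {G : Type*} [Group G] (Q : Subgroup G) [Finite Q] (hQ : IsPGroup 2 Q)
    (k : G) (c : ℕ) (hc : Odd c) (hkc : k ^ c = 1) (hkQ : ∀ q ∈ Q, k * q * k⁻¹ ∈ Q)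
    (h : ∀ q ∈ Q, ⁅k, q⁆ ∈ Phi Q) : ∀ q ∈ Q, k * q = q * k := by
  have hF : Finite (Phi Q) := Finite.of_injective _ (Subgroup.inclusion_injective (Phi_le Q))
  have hF2 : IsPGroup 2 (Phi Q) := hQ.to_le (Phi_le Q)
  have key : ∀ q ∈ Q, ∃ x ∈ Phi Q, k * (q * x) = (q * x) * k := by
    intro q hq
    have hq1 : q⁻¹ * (k * q * k⁻¹) ∈ Phi Q := by
      have h1 := Phi_conj Q (k := q⁻¹) (fun y hy => Q.mul_mem (Q.mul_mem (Q.inv_mem hq) hy)
        (Q.inv_mem (Q.inv_mem hq))) (h q hq)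
      have h2 : q⁻¹ * ⁅k, q⁆ * q⁻¹⁻¹ = q⁻¹ * (k * q * k⁻¹) := by
        rw [commutatorElement_def]; group
      rwa [h2] at h1
    let π : Phi Q → Phi Q := fun x => ⟨q⁻¹ * (k * q * k⁻¹) * (k * x * k⁻¹),
      mul_mem hq1 (Phi_conj Q hkQ x.2)⟩
    let α : Phi Q →* Phi Q :=
      { toFun := fun x => ⟨k * x * k⁻¹, Phi_conj Q hkQ x.2⟩
        map_one' := Subtype.ext (by simp)
        map_mul' := fun x y => Subtype.ext (by simp) }
    have hπ : ∀ x y, π (x * y) = π x * α y := by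
      intro x y
      apply Subtype.ext
      show q⁻¹ * (k * q * k⁻¹) * (k * (x * y) * k⁻¹) =
        (q⁻¹ * (k * q * k⁻¹) * (k * x * k⁻¹)) * (k * y * k⁻¹)
      group
    have hit : ∀ j, ∀ x : Phi Q, ((π^[j] x : Phi Q) : G) = q⁻¹ * (k ^ j * (q * x) * (k ^ j)⁻¹) := by
      intro j
      induction j with
      | zero => intro x; simp
      | succ j ihj =>
        intro x
        rw [Function.iterate_succ_apply']
        show q⁻¹ * (k * q * k⁻¹) * (k * (π^[j] x : Phi Q) * k⁻¹) = _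
        rw [ihj, pow_succ']; group
    obtain ⟨x, hx⟩ := fixedPoint hF2 α π hπ c hc (fun x => Subtype.ext (by
      rw [hit, hkc]; simp))
    refine ⟨x, x.2, ?_⟩
    have h1 := hit 1 x
    rw [Function.iterate_one, hx, pow_one] at h1
    calc k * (q * x) = q * (q⁻¹ * (k * (q * x) * k⁻¹)) * k := by group
      _ = q * x * k := by rw [← h1]
  let C : Subgroup Q :=
    { carrier := {q | k * (q : G) = q * k}
      mul_mem' := by
        intro a b ha hb
        have ha' : k * (a : G) = a * k := ha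
        have hb' : k * (b : G) = b * k := hb
        show k * ((a : G) * b) = a * b * k
        rw [← mul_assoc, ha', mul_assoc, hb', mul_assoc]
      one_mem' := by simp
      inv_mem' := by
        intro a ha
        have ha' : k * (a : G) = a * k := ha
        show k * (a : G)⁻¹ = (a : G)⁻¹ * k
        rw [mul_inv_eq_iff_eq_mul, mul_assoc, ha', inv_mul_cancel_left] }
  have hmap : ∀ x ∈ Phi Q, ∃ y ∈ closure {z : Q | ∃ q : Q, z = q ^ 2}, (y : G) = x := by
    intro x hx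
    unfold Phi at hx
    induction hx using closure_induction with
    | mem x hx =>
      obtain ⟨q, hq, rfl⟩ := hx
      exact ⟨(⟨q, hq⟩ : Q) ^ 2, Subgroup.subset_closure ⟨_, rfl⟩, rfl⟩
    | one => exact ⟨1, one_mem _, rfl⟩
    | mul x y _ _ hx hy =>
      obtain ⟨a, ha, rfl⟩ := hx
      obtain ⟨b, hb, rfl⟩ := hy
      exact ⟨a * b, mul_mem ha hb, rfl⟩
    | inv x _ hx =>
      obtain ⟨a, ha, rfl⟩ := hx
      exact ⟨a⁻¹, inv_mem ha, rfl⟩
  have hC : C = ⊤ := by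
    apply nongen hQ
    intro q
    obtain ⟨x, hx, hqx⟩ := key q q.2
    obtain ⟨y, hy, rfl⟩ := hmap x hx
    exact ⟨y, hy, hqx⟩
  intro q hq
  have : (⟨q, hq⟩ : Q) ∈ C := by rw [hC]; exact mem_top _
  exact this

theorem invert {G : Type*} [Group G] (Q : Subgroup G) [Finite Q] (hQ : IsPGroup 2 Q)
    (t ρ : G) (c : ℕ) (hc : Odd c) (hρc : ρ ^ c = 1) (hρQ : ∀ q ∈ Q, ρ * q * ρ⁻¹ ∈ Q)
    (h : t * ρ * t⁻¹ * ρ ∈ Q) : ∃ x ∈ Q, (x⁻¹ * t) * ρ * (x⁻¹ * t)⁻¹ = ρ⁻¹ := by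
  have hρQ' := finite_conj_mem hρQ
  set q := t * ρ * t⁻¹ * ρ with hq
  let π : Q → Q := fun x => ⟨q * (ρ⁻¹ * x * ρ), Q.mul_mem h (hρQ' x x.2)⟩
  let α : Q →* Q :=
    { toFun := fun x => ⟨ρ⁻¹ * x * ρ, hρQ' x x.2⟩
      map_one' := Subtype.ext (by simp)
      map_mul' := fun x y => Subtype.ext (by
        show ρ⁻¹ * ((x : G) * y) * ρ = (ρ⁻¹ * x * ρ) * (ρ⁻¹ * y * ρ)
        group) }
  have hπ : ∀ x y, π (x * y) = π x * α y := by
    intro x y
    apply Subtype.ext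
    show q * (ρ⁻¹ * (x * y) * ρ) = (q * (ρ⁻¹ * x * ρ)) * (ρ⁻¹ * y * ρ)
    group
  have hit : ∀ j, ∀ x : Q, ((π^[j] x : Q) : G) = (q * ρ⁻¹) ^ j * x * ρ ^ j := by
    intro j
    induction j with
    | zero => intro x; simp
    | succ j ihj =>
      intro x
      rw [Function.iterate_succ_apply']
      show q * (ρ⁻¹ * (π^[j] x : Q) * ρ) = _
      rw [ihj, pow_succ', pow_succ]; group
  have hqρ : q * ρ⁻¹ = t * ρ * t⁻¹ := by rw [hq]; group
  have hqρc : (q * ρ⁻¹) ^ c = 1 := by rw [hqρ, conj_pow, hρc]; simp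
  obtain ⟨x, hx⟩ := fixedPoint hQ α π hπ c hc (fun x => Subtype.ext (by
    rw [hit, hqρc, hρc]; simp))
  refine ⟨x, x.2, ?_⟩
  have h1 : q * (ρ⁻¹ * x * ρ) = x := congrArg Subtype.val hx
  have h2 : t * ρ * t⁻¹ = x * ρ⁻¹ * (x : G)⁻¹ := by
    rw [← hqρ]
    calc q * ρ⁻¹ = (q * (ρ⁻¹ * x * ρ)) * ρ⁻¹ * (x : G)⁻¹ := by group
      _ = x * ρ⁻¹ * (x : G)⁻¹ := by rw [h1]
  calc ((x : G)⁻¹ * t) * ρ * ((x : G)⁻¹ * t)⁻¹ = (x : G)⁻¹ * (t * ρ * t⁻¹) * x := by group
    _ = ρ⁻¹ := by rw [h2]; group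

end E1ad.helper89
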