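import Pool.Agent.Lib.MP_1ad17e_al_helper89.Key
import Pool.Agent.Lib.MP_1ad17e_al_helper89.FP
import Pool.Agent.Lib.MP_1ad17e_al_helper20.LemU

/-! MP_1ad17e_al, T7a2: the main step of the fusion theorem. -/

namespace E1ad.helper89

open Subgroup
open scoped commutatorElement

section Aux

variable {G : Type*} [Group G]

/-- the preimage in `N_G(Q)` of a commuting pair of involutions of `N_G(Q)/Q` is a `2`-group -/
theorem two_group (Q : Subgroup G) (hQ2 : IsPGroup 2 Q) (a b : G)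
    (ha : a ∈ normalizer (Q : Set G)) (hb : b ∈ normalizer (Q : Set G))
    (ha2 : a ^ 2 ∈ Q) (hb2 : b ^ 2 ∈ Q) (hab : a * b * a⁻¹ * b⁻¹ ∈ Q) :
    ∃ S : Subgroup G, IsPGroup 2 S ∧ S ≤ normalizer (Q : Set G) ∧ a ∈ S ∧ b ∈ S := by
  set N : Subgroup G := normalizer (Q : Set G) with hN
  have hQN : Q ≤ N := le_normalizer
  have hnor : (Q.subgroupOf N).Normal := by
    constructor
    intro q hq g
    rw [mem_subgroupOf] at hq ⊢
    exact (mem_normalizer_iff.1 g.2 q).1 hq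
  let π : N →* N ⧸ (Q.subgroupOf N) := QuotientGroup.mk' (Q.subgroupOf N)
  have hπ : ∀ x : N, π x = 1 ↔ (x : G) ∈ Q := by
    intro x
    rw [← MonoidHom.mem_ker, QuotientGroup.ker_mk', mem_subgroupOf]
  let a' : N := ⟨a, ha⟩
  let b' : N := ⟨b, hb⟩
  have hA2 : π a' ^ 2 = 1 := by rw [← map_pow, hπ]; exact ha2
  have hB2 : π b' ^ 2 = 1 := by rw [← map_pow, hπ]; exact hb2
  have hAB : π a' * π b' = π b' * π a' := by
    have : π (a' * b' * a'⁻¹ * b'⁻¹) = 1 := (hπ _).2 hab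
    rw [map_mul, map_mul, map_mul, map_inv, map_inv, mul_inv_eq_one, mul_inv_eq_iff_eq_mul] at this
    exact this
  let S' : Subgroup (N ⧸ (Q.subgroupOf N)) := closure {π a', π b'}
  have hcomm : ∀ x ∈ S', ∀ y ∈ S', x * y = y * x := by
    have h1 : S' ≤ centralizer ({π a', π b'} : Set _) := by
      rw [closure_le]
      intro x hx
      rw [SetLike.mem_coe, mem_centralizer_iff]
      rintro y hy
      rcases hx with rfl | rfl <;> rcases hy with rfl | rfl <;> first | rfl | exact hAB | exact hAB.symm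
    intro x hx y hy
    have h2 : ({π a', π b'} : Set _) ⊆ centralizer ({x} : Set (N ⧸ (Q.subgroupOf N))) := by
      intro z hz
      rw [SetLike.mem_coe, mem_centralizer_iff]
      rintro w rfl
      exact ((mem_centralizer_iff.1 (h1 hx)) z hz).symm
    have h3 : S' ≤ centralizer ({x} : Set _) := (closure_le _).2 h2
    exact (mem_centralizer_iff.1 (h3 hy)) x rfl
  have hsq : ∀ x ∈ S', x ^ 2 = 1 := by
    intro x hx
    refine closure_induction (p := fun x _ => x ^ 2 = 1) ?_ (one_pow 2) ?_ ?_ hx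
    · rintro y (rfl | rfl)
      · exact hA2
      · exact hB2
    · intro x y hx hy h1 h2
      have h3 : Commute x y := hcomm x hx y hy
      rw [h3.mul_pow, h1, h2, one_mul]
    · intro x _ h1
      rw [inv_pow, h1, inv_one]
  refine ⟨(S'.comap π).map N.subtype, ?_, ?_, ?_, ?_⟩
  · rintro ⟨s, hs⟩
    obtain ⟨m, hm, rfl⟩ := mem_map.1 hs
    have h1 : π m ^ 2 = 1 := hsq _ (mem_comap.1 hm)
    rw [← map_pow, hπ] at h1
    obtain ⟨k, hk⟩ := hQ2 ⟨_, h1⟩
    refine ⟨k + 1, ?_⟩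
    apply Subtype.ext
    have h2 := congrArg Subtype.val hk
    simp only [SubmonoidClass.coe_pow, OneMemClass.coe_one] at h2 ⊢
    rw [pow_succ', pow_mul]
    exact h2
  · intro s hs
    obtain ⟨m, hm, rfl⟩ := mem_map.1 hs
    exact m.2
  · exact mem_map.2 ⟨a', mem_comap.2 (subset_closure (by simp)), rfl⟩
  · exact mem_map.2 ⟨b', mem_comap.2 (subset_closure (by simp)), rfl⟩

/-- if `w ^ a` and `w ^ b` are in `S` with `a, b` coprime then `w ∈ S` -/
theorem mem_of_coprime_pow (S : Subgroup G) (w : G) (a b : ℕ) (hab : Nat.Coprime a b)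
    (ha : w ^ a ∈ S) (hb : w ^ b ∈ S) : w ∈ S := by
  have h := Nat.gcd_eq_gcd_ab a b
  rw [hab] at h
  have : w = (w ^ a) ^ (Nat.gcdA a b) * (w ^ b) ^ (Nat.gcdB a b) := by
    rw [← zpow_natCast, ← zpow_natCast, ← zpow_mul, ← zpow_mul, ← zpow_add, ← h]
    simp
  rw [this]
  exact S.mul_mem (S.zpow_mem ha _) (S.zpow_mem hb _)

end Aux

/-- T7a2, with the conclusion of T7a1 (`star`) as a hypothesis. -/
theorem mainStep_aux {G : Type*} [Group G] [Finite G] (T : Subgroup G) (hT2 : IsPGroup 2 T)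
    (n L : ℕ) (hn : 1 ≤ n) (hL : n < 2 ^ L) (hT : Subgroup.upperCentralSeries T n = ⊤)
    (Q : Subgroup G) (hQT : Q < T)
    (hSyl : ∀ S : Subgroup G, IsPGroup 2 S → S ≤ normalizer (Q : Set G) →
      ∃ x ∈ normalizer (Q : Set G), ∀ s ∈ S, x * s * x⁻¹ ∈ T)
    (Nst : Subgroup G) (hN1 : Nst ≤ normalizer (Q : Set G))
    (hE : ∀ m ∈ normalizer (Q : Set G),
      (∀ z ∈ Q, z ∈ powSub T (n - 1 + (3 * L + 2 * (2 * n - 1))) → m * z = z * m) → m ∈ Nst)
    (hP : normalizer (Q : Set G) ⊓ T ≤ Nst)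
    (hF : ∀ m ∈ normalizer (Q : Set G), ∀ S : Subgroup G, Q < S → S ≤ normalizer (Q : Set G) ⊓ T →
      (∀ s ∈ S, m * s * m⁻¹ ∈ T) → m ∈ Nst)
    (hst : (∀ m : G, (∀ z ∈ Q, m * z = z * m) → m ∈ Nst) → Nst ≠ normalizer (Q : Set G) →
      ∀ y ∈ T, (∀ q ∈ Q, ⁅y, q⁆ ∈ Phi Q) → y ∈ Q) :
    Nst = normalizer (Q : Set G) := by
  by_contra hne
  set N : Subgroup G := normalizer (Q : Set G) with hN
  have hQN : Q ≤ N := le_normalizer
  have hNQ : ∀ m ∈ N, ∀ q, q ∈ Q ↔ m * q * m⁻¹ ∈ Q := fun m hm q => mem_normalizer_iff.1 hm q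
  have hQ2 : IsPGroup 2 Q := hT2.to_le hQT.le
  have hC : ∀ m : G, (∀ z ∈ Q, m * z = z * m) → m ∈ Nst := by
    intro m hm
    refine hE m (mem_norm_of_finite ?_) (fun z hz _ => hm z hz)
    intro q hq
    rw [hm q hq, mul_inv_cancel_right]; exact hq
  have hstar := hst hC hne
  -- (U)
  have hU : ∀ x ∈ T, x ^ (2 ^ (n - 1)) ∈ Q := by
    intro x hx
    have h := E1ad.helper20.lemmaU (H := T) n hn hT (Q.subgroupOf T) ?_ ⟨x, hx⟩
    · exact h
    · intro y hy
      rw [mem_subgroupOf]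
      refine hstar y y.2 ?_
      intro q hq
      have h1 := hy ⟨q, hQT.le hq⟩ (by rw [mem_subgroupOf]; exact hq)
      have h2 : (Phi (Q.subgroupOf T)).map T.subtype ≤ Phi Q := by
        unfold Phi
        rw [MonoidHom.map_closure, closure_le]
        rintro _ ⟨z, ⟨q, hq, rfl⟩, rfl⟩
        exact subset_closure ⟨q, hq, rfl⟩
      exact h2 (mem_map.2 ⟨_, h1, rfl⟩)
  -- the form of hF for elements
  have hF' : ∀ m ∈ N, ∀ s ∈ N, s ∈ T → s ∉ Q → m * s * m⁻¹ ∈ T → m ∈ Nst := by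
    intro m hm s hsN hsT hsQ hms
    refine hF m hm (Q ⊔ zpowers s) ?_ ?_ ?_
    · refine lt_of_le_of_ne le_sup_left ?_
      intro h
      apply hsQ
      rw [h]
      exact (le_sup_right : zpowers s ≤ Q ⊔ zpowers s) (mem_zpowers s)
    · refine sup_le (le_inf hQN hQT.le) ?_
      rw [zpowers_le]
      exact ⟨hsN, hsT⟩
    · have h1 : Q ⊔ zpowers s ≤ T.comap (MulAut.conj m).toMonoidHom := by
        refine sup_le ?_ ?_
        · intro q hq
          rw [mem_comap]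
          exact hQT.le ((hNQ m hm q).1 hq)
        · rw [zpowers_le, mem_comap]
          exact hms
      intro s' hs'
      exact mem_comap.1 (h1 hs')
  have hSyl' : ∀ a ∈ N, ∀ b ∈ N, a ^ 2 ∈ Q → b ^ 2 ∈ Q → a * b * a⁻¹ * b⁻¹ ∈ Q →
      ∃ x ∈ N, x * a * x⁻¹ ∈ T ∧ x * b * x⁻¹ ∈ T := by
    intro a ha b hb ha2 hb2 hab
    obtain ⟨S, hS2, hSN, haS, hbS⟩ := two_group Q hQ2 a b ha hb ha2 hb2 hab
    obtain ⟨x, hx, hxS⟩ := hSyl S hS2 hSN
    exact ⟨x, hx, hxS a haS, hxS b hbS⟩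
  -- the element t
  obtain ⟨t, htT, htN, htQ, ht2⟩ : ∃ t ∈ T, t ∈ N ∧ t ∉ Q ∧ t ^ 2 ∈ Q := by
    have hnil : Group.IsNilpotent T := ⟨n, hT⟩
    have hnc : NormalizerCondition T := Group.normalizerCondition_of_isNilpotent
    have hlt : Q.subgroupOf T < ⊤ := by
      rw [lt_top_iff_ne_top, Ne, subgroupOf_eq_top]
      exact hQT.not_ge
    obtain ⟨y, hy, hyQ⟩ := SetLike.exists_of_lt (hnc _ hlt)
    rw [mem_subgroupOf] at hyQ
    have hyN : (y : G) ∈ N := by
      refine mem_norm_of_finite ?_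
      intro q hq
      have := (mem_normalizer_iff.1 hy ⟨q, hQT.le hq⟩).1 (by rw [mem_subgroupOf]; exact hq)
      rw [mem_subgroupOf] at this
      exact this
    have hex : ∃ k, (y : G) ^ (2 ^ k) ∈ Q := by
      obtain ⟨k, hk⟩ := hT2 y
      refine ⟨k, ?_⟩
      have := congrArg Subtype.val hk
      simp only [SubmonoidClass.coe_pow, OneMemClass.coe_one] at this
      rw [this]; exact Q.one_mem
    classical
    obtain ⟨k, hk⟩ : ∃ k, Nat.find hex = k + 1 := by
      refine Nat.exists_eq_succ_of_ne_zero ?_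
      intro h
      have := Nat.find_spec hex
      rw [h, pow_zero, pow_one] at this
      exact hyQ this
    refine ⟨(y : G) ^ (2 ^ k), T.pow_mem y.2 _, N.pow_mem hyN _, ?_, ?_⟩
    · exact Nat.find_min hex (by omega)
    · have := Nat.find_spec hex
      rw [hk, pow_succ, pow_mul] at this
      exact this
  obtain ⟨y₀, hy₀N, hy₀⟩ := SetLike.exists_of_lt (lt_of_le_of_ne hN1 hne)
  -- the quotient
  have hnor : (Q.subgroupOf N).Normal := by
    constructor
    intro q hq g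
    rw [mem_subgroupOf] at hq ⊢
    exact (mem_normalizer_iff.1 g.2 q).1 hq
  let π : N →* N ⧸ (Q.subgroupOf N) := QuotientGroup.mk' (Q.subgroupOf N)
  have hπ : ∀ x : N, π x = 1 ↔ (x : G) ∈ Q := by
    intro x
    rw [← MonoidHom.mem_ker, QuotientGroup.ker_mk', mem_subgroupOf]
  let tN : N := ⟨t, htN⟩
  let yN : N := ⟨y₀, hy₀N⟩
  let t'N : N := yN * tN * yN⁻¹
  let wN : N := tN * t'N
  have hτ2 : π tN * π tN = 1 := by
    rw [← map_mul, hπ]
    show t * t ∈ Q
    rw [← sq]; exact ht2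
  have hτ'2 : π t'N * π t'N = 1 := by
    rw [← map_mul, hπ]
    have : t'N * t'N = yN * (tN * tN) * yN⁻¹ := by
      show (yN * tN * yN⁻¹) * (yN * tN * yN⁻¹) = _
      group
    rw [this]
    show y₀ * (t * t) * y₀⁻¹ ∈ Q
    rw [← sq]
    exact (hNQ y₀ hy₀N _).1 ht2
  have hτi : (π tN)⁻¹ = π tN := inv_eq_of_mul_eq_one_left hτ2
  have hτ'i : (π t'N)⁻¹ = π t'N := inv_eq_of_mul_eq_one_left hτ'2
  set W : N ⧸ (Q.subgroupOf N) := π wN with hW
  have hWe : W = π tN * π t'N := by rw [hW, ← map_mul]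
  have hWi : W⁻¹ = π t'N * π tN := by rw [hWe, mul_inv_rev, hτi, hτ'i]
  have hτW : ∀ k : ℕ, π tN * W ^ k * (π tN)⁻¹ = (W ^ k)⁻¹ := by
    intro k
    rw [← conj_pow, ← inv_pow, hWi, hWe, hτi]
    congr 1
    rw [mul_assoc, mul_assoc, ← mul_assoc (π tN) (π tN), hτ2, one_mul]
  have hτ'W : ∀ k : ℕ, π t'N * W ^ k * (π t'N)⁻¹ = (W ^ k)⁻¹ := by
    intro k
    rw [← conj_pow, ← inv_pow, hWi, hWe, hτ'i]
    congr 1
    rw [mul_assoc, mul_assoc, hτ'2, mul_one]
  -- (1) odd order mod Q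
  have hodd : Odd (orderOf W) := by
    by_contra hev
    rw [Nat.not_odd_iff_even] at hev
    obtain ⟨k, hk⟩ := hev
    have hpos : 0 < orderOf W := orderOf_pos W
    set U := W ^ k with hU'
    have hU2 : U * U = 1 := by rw [hU', ← pow_add, ← hk, pow_orderOf_eq_one]
    have hUi : U⁻¹ = U := inv_eq_of_mul_eq_one_left hU2
    have hU1 : U ≠ 1 := by
      intro h
      have := orderOf_dvd_of_pow_eq_one h
      have := Nat.le_of_dvd (by omega) this
      omega
    let uN : N := wN ^ k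
    have huU : π uN = U := by
      show π (wN ^ k) = U
      rw [map_pow]
    have huQ : (uN : G) ∉ Q := by rw [← hπ, huU]; exact hU1
    have hu2 : (uN : G) ^ 2 ∈ Q := by
      have : π (uN * uN) = 1 := by rw [map_mul, huU, hU2]
      rw [hπ] at this
      rw [sq]; exact this
    have htu : t * (uN : G) * t⁻¹ * (uN : G)⁻¹ ∈ Q := by
      have : π (tN * uN * tN⁻¹ * uN⁻¹) = 1 := by
        rw [map_mul, map_mul, map_mul, map_inv, map_inv, huU, hτW, hUi, hU2]
      rw [hπ] at this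
      exact this
    have ht'u : (t'N : G) * (uN : G) * (t'N : G)⁻¹ * (uN : G)⁻¹ ∈ Q := by
      have : π (t'N * uN * t'N⁻¹ * uN⁻¹) = 1 := by
        rw [map_mul, map_mul, map_mul, map_inv, map_inv, huU, hτ'W, hUi, hU2]
      rw [hπ] at this
      exact this
    have ht'2 : (t'N : G) ^ 2 ∈ Q := by
      have : π (t'N * t'N) = 1 := by rw [map_mul, hτ'2]
      rw [hπ] at this
      rw [sq]; exact this
    obtain ⟨x, hxN, hxt, hxu⟩ := hSyl' t htN uN uN.2 ht2 hu2 htu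
    obtain ⟨x', hx'N, hx't, hx'u⟩ := hSyl' t'N t'N.2 uN uN.2 ht'2 hu2 ht'u
    have h1 : x ∈ Nst := hF' x hxN t htN htT htQ hxt
    have h2 : x' * y₀ ∈ Nst := by
      refine hF' _ (N.mul_mem hx'N hy₀N) t htN htT htQ ?_
      have : x' * y₀ * t * (x' * y₀)⁻¹ = x' * (t'N : G) * x'⁻¹ := by
        show _ = x' * (y₀ * t * y₀⁻¹) * x'⁻¹
        group
      rw [this]; exact hx't
    have h3 : x' * x⁻¹ ∈ Nst := by
      refine hF' _ (N.mul_mem hx'N (N.inv_mem hxN)) (x * (uN : G) * x⁻¹)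
        (N.mul_mem (N.mul_mem hxN uN.2) (N.inv_mem hxN)) hxu ?_ ?_
      · rw [← hNQ x hxN]; exact huQ
      · have : x' * x⁻¹ * (x * (uN : G) * x⁻¹) * (x' * x⁻¹)⁻¹ = x' * (uN : G) * x'⁻¹ := by group
        rw [this]; exact hx'u
    apply hy₀
    have h4 : x' ∈ Nst := by
      have := Nst.mul_mem h3 h1
      rwa [inv_mul_cancel_right] at this
    have h5 := Nst.mul_mem (Nst.inv_mem h4) h2
    rwa [inv_mul_cancel_left] at h5
  -- (2)
  obtain ⟨j, hj⟩ := hodd
  have hwo : W ^ (2 * j + 1) = 1 := by rw [← hj]; exact pow_orderOf_eq_one W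
  have hwN : (wN : G) ∉ Nst := by
    intro hw
    apply hy₀
    have h1 : (wN : G) ^ (j + 1) * y₀ ∈ Nst := by
      refine hF' _ (N.mul_mem (N.pow_mem wN.2 _) hy₀N) t htN htT htQ ?_
      have h2 : π (wN ^ (j + 1) * t'N * (wN ^ (j + 1))⁻¹ * tN⁻¹) = 1 := by
        rw [map_mul, map_mul, map_mul, map_inv, map_inv, map_pow, ← hW, mul_inv_eq_one]
        have h3 : (W ^ (j + 1))⁻¹ = π t'N * W ^ (j + 1) * π t'N := by
          rw [← hτ'W (j + 1), hτ'i]
        rw [h3]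
        calc W ^ (j + 1) * π t'N * (π t'N * W ^ (j + 1) * π t'N)
            = W ^ (j + 1) * (π t'N * π t'N) * W ^ (j + 1) * π t'N := by
              simp only [mul_assoc]
          _ = W ^ (2 * j + 1) * W * π t'N := by
              rw [hτ'2, mul_one, ← pow_add, ← pow_succ]; congr 2; ring
          _ = π tN := by
              rw [hwo, one_mul, hWe, mul_assoc, hτ'2, mul_one]
      rw [hπ] at h2
      have h4 : (wN : G) ^ (j + 1) * y₀ * t * ((wN : G) ^ (j + 1) * y₀)⁻¹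
          = ((wN ^ (j + 1) * t'N * (wN ^ (j + 1))⁻¹ * tN⁻¹ : N) : G) * t := by
        show _ = ((wN : G) ^ (j + 1) * (y₀ * t * y₀⁻¹) * ((wN : G) ^ (j + 1))⁻¹ * t⁻¹) * t
        group
      rw [h4]
      exact T.mul_mem (hQT.le h2) htT
    have h2 := Nst.mul_mem (Nst.inv_mem (Nst.pow_mem hw (j + 1))) h1
    rwa [inv_mul_cancel_left] at h2
  apply hwN
  -- (3)
  obtain ⟨b, c, hc, hbc⟩ := Nat.exists_eq_two_pow_mul_odd (orderOf_pos (wN : G)).ne'
  set ρ : G := (wN : G) ^ (2 ^ b) with hρ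
  have hρc : ρ ^ c = 1 := by rw [hρ, ← pow_mul, ← hbc, pow_orderOf_eq_one]
  have hρN : ρ ∈ N := N.pow_mem wN.2 _
  have hρQ : ∀ q ∈ Q, ρ * q * ρ⁻¹ ∈ Q := fun q hq => (hNQ ρ hρN q).1 hq
  have htρ : t * ρ * t⁻¹ * ρ ∈ Q := by
    have : π (tN * wN ^ (2 ^ b) * tN⁻¹ * wN ^ (2 ^ b)) = 1 := by
      rw [map_mul, map_mul, map_mul, map_inv, map_pow, ← hW, hτW, inv_mul_cancel]
    rw [hπ] at this
    exact this
  obtain ⟨x, hxQ, hx⟩ := invert Q hQ2 t ρ c hc hρc hρQ htρ
  have hρE : ∀ q ∈ Q, ρ * q ^ (2 ^ (3 * L + 2 * (2 * n - 1)))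
      = q ^ (2 ^ (3 * L + 2 * (2 * n - 1))) * ρ := by
    intro q hq
    refine keyLemma T hT2 n L hn hL
      (fun i => (Subgroup.upperCentralSeries T (n - i)).map T.subtype) ?_ ?_ ?_ ?_ Q hQT.le
      (x⁻¹ * t) ρ (T.mul_mem (T.inv_mem (hQT.le hxQ)) htT) ?_ hρQ c hc hρc hx q hq
    · show (Subgroup.upperCentralSeries T (n - 0)).map T.subtype = T
      rw [Nat.sub_zero, hT, ← MonoidHom.range_eq_map, range_subtype]
    · intro i
      exact map_mono (Subgroup.upperCentralSeries_mono T (by omega))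
    · rintro i _ ⟨x, hx, rfl⟩ y hy
      show _ ∈ (Subgroup.upperCentralSeries T (n - (i + 1))).map T.subtype
      have hx' : x ∈ Subgroup.upperCentralSeries T (n - i) := hx
      rcases Nat.lt_or_ge i n with h | h
      · have h1 : n - i = (n - (i + 1)) + 1 := by omega
        rw [h1, Subgroup.mem_upperCentralSeries_succ_iff] at hx'
        exact mem_map.2 ⟨_, hx' ⟨y, hy⟩, rfl⟩
      · have h1 : n - i = 0 := by omega
        rw [h1, Subgroup.upperCentralSeries_zero, mem_bot] at hx'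
        rw [hx', map_one, commutatorElement_one_left]
        exact one_mem _
    · show (Subgroup.upperCentralSeries T (n - n)).map T.subtype = ⊥
      rw [Nat.sub_self, Subgroup.upperCentralSeries_zero, Subgroup.map_bot]
    · intro q hq
      exact (hNQ _ (N.mul_mem (N.inv_mem (hQN hxQ)) htN) q).1 hq
  have hρst : ρ ∈ Nst := by
    refine hE ρ hρN ?_
    intro z _ hz
    have h1 : powSub T (n - 1 + (3 * L + 2 * (2 * n - 1))) ≤ centralizer ({ρ} : Set G) := by
      unfold powSub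
      rw [closure_le]
      rintro _ ⟨x, hx, rfl⟩
      rw [SetLike.mem_coe, mem_centralizer_iff]
      rintro _ rfl
      rw [pow_add, pow_mul]
      exact hρE _ (hU x hx)
    exact (mem_centralizer_iff.1 (h1 hz)) ρ rfl
  -- (4)
  refine mem_of_coprime_pow Nst wN (2 ^ b) (2 * j + 1) ?_ hρst ?_
  · apply Nat.Coprime.pow_left
    simp
  · apply hP
    have : (wN : G) ^ (2 * j + 1) ∈ Q := by
      have h1 : π (wN ^ (2 * j + 1)) = 1 := by rw [map_pow]; exact hwo
      rw [hπ] at h1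
      exact h1
    exact ⟨hQN this, hQT.le this⟩

end E1ad.helper89
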