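import Mathlib

/-! T3 and T4 of MP_1ad17e_al. -/

namespace E1ad.helper89

section T4

variable {R : Type*} [Ring R]

theorem one_add_pow (v : R) (j : ℕ) :
    ∃ Y : R, Commute Y v ∧ (1 + v) ^ (2 ^ j) = 1 + v ^ (2 ^ j) + 2 * Y := by
  induction j with
  | zero => exact ⟨0, Commute.zero_left v, by simp⟩
  | succ j ih =>
    obtain ⟨Y, hY, h⟩ := ih
    set w := v ^ (2 ^ j) with hw
    have hYw : Y * w = w * Y := (hY.pow_right _).eq
    refine ⟨w + 2 * Y + 2 * (w * Y) + 2 * (Y * Y), ?_, ?_⟩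
    · have h1 : Commute w v := (Commute.refl v).pow_left _
      have h2 : Commute (2 : R) v := (Nat.cast_commute 2 v)
      exact ((h1.add_left (h2.mul_left hY)).add_left (h2.mul_left (h1.mul_left hY))).add_left
        (h2.mul_left (hY.mul_left hY))
    · have e1 : (1 + v) ^ (2 ^ (j + 1)) = (1 + v) ^ (2 ^ j) * (1 + v) ^ (2 ^ j) := by
        rw [← pow_add, pow_succ]; congr 1; ring
      have e2 : v ^ (2 ^ (j + 1)) = w * w := by
        rw [hw, ← pow_add, pow_succ]; congr 1; ring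
      rw [e1, e2, h]
      have h3 : (2 : R) * Y = Y + Y := two_mul Y
      have h4 : (2 : R) * (w * Y) = w * Y + w * Y := two_mul _
      have h5 : (2 : R) * (Y * Y) = Y * Y + Y * Y := two_mul _
      rw [h3, h4, h5, two_mul]
      simp only [mul_add, add_mul, one_mul, mul_one, hYw]
      abel

theorem pow_two_pow (n j : ℕ) (hj : n ≤ 2 ^ j) (χ : R) (h : (χ - 1) ^ n = 0) :
    ∃ Y : R, χ ^ (2 ^ j) = 1 + 2 * Y := by
  obtain ⟨Y, -, hY⟩ := one_add_pow (χ - 1) j
  refine ⟨Y, ?_⟩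
  have h1 : (χ - 1) ^ (2 ^ j) = 0 := by
    obtain ⟨k, hk⟩ := Nat.exists_eq_add_of_le hj
    rw [hk, pow_add, h, zero_mul]
  have h2 : 1 + (χ - 1) = χ := by abel
  rw [h1, h2, add_zero] at hY
  exact hY

theorem powEq (n L a : ℕ) (hL : n ≤ 2 ^ L) (χ χ' : R)
    (h : (χ - 1) ^ n = 0) (h' : (χ' - 1) ^ n = 0) (ha : (2 : R) ^ a * (χ' - χ) = 0) :
    χ' ^ (2 ^ (L + a)) = χ ^ (2 ^ (L + a)) := by
  have hcomm : ∀ x : R, (2 : R) ^ a * x = x * (2 : R) ^ a := fun x =>
    ((Nat.cast_commute 2 x).pow_left a).eq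
  have sq' : ∀ (x : R) (j : ℕ), x ^ (2 ^ (j + 1)) = x ^ (2 ^ j) * x ^ (2 ^ j) := by
    intro x j; rw [← pow_add, pow_succ]; congr 1; ring
  have step : ∀ j : ℕ, χ' ^ (2 ^ (j + 1)) - χ ^ (2 ^ (j + 1)) =
      χ' ^ (2 ^ j) * (χ' ^ (2 ^ j) - χ ^ (2 ^ j)) +
        (χ' ^ (2 ^ j) - χ ^ (2 ^ j)) * χ ^ (2 ^ j) := by
    intro j; rw [sq', sq', mul_sub, sub_mul]; abel
  have h2 : ∀ j : ℕ, (2 : R) ^ a * (χ' ^ (2 ^ j) - χ ^ (2 ^ j)) = 0 := by
    intro j
    induction j with
    | zero => simpa using ha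
    | succ j ih =>
      rw [step, mul_add, ← mul_assoc, hcomm (χ' ^ (2 ^ j)), mul_assoc, ih, mul_zero,
        ← mul_assoc, ih, zero_mul, add_zero]
  have key : ∀ i : ℕ, ∃ ε : R, χ' ^ (2 ^ (L + i)) - χ ^ (2 ^ (L + i)) = 2 ^ i * ε ∧
      (2 : R) ^ a * ε = 0 := by
    intro i
    induction i with
    | zero => exact ⟨_, by rw [pow_zero, one_mul], h2 (L + 0)⟩
    | succ i ih =>
      obtain ⟨ε, h3, h4⟩ := ih
      have hLi : n ≤ 2 ^ (L + i) := hL.trans (Nat.pow_le_pow_right (by norm_num) (by omega))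
      obtain ⟨Y, hY⟩ := pow_two_pow n (L + i) hLi χ h
      obtain ⟨Y', hY'⟩ := pow_two_pow n (L + i) hLi χ' h'
      refine ⟨ε + Y' * ε + ε * Y, ?_, ?_⟩
      · have hci : ∀ x : R, x * (2 : R) ^ i = (2 : R) ^ i * x := fun x =>
          ((Nat.cast_commute 2 x).pow_left i).eq.symm
        have hc2 : ∀ x : R, x * (2 : R) = 2 * x := fun x => (Nat.cast_commute 2 x).eq.symm
        have e1 := step (L + i)
        rw [show L + (i + 1) = L + i + 1 by ring, e1, h3, hY, hY']
        calc (1 + 2 * Y') * (2 ^ i * ε) + 2 ^ i * ε * (1 + 2 * Y)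
            = 2 ^ i * ε + 2 ^ i * ε + 2 * (Y' * 2 ^ i) * ε + 2 ^ i * (ε * 2) * Y := by
              simp only [add_mul, mul_add, one_mul, mul_one, mul_assoc]; abel
          _ = 2 ^ i * ε + 2 ^ i * ε + 2 * (2 ^ i * Y') * ε + 2 ^ i * (2 * ε) * Y := by
              rw [hci Y', hc2 ε]
          _ = 2 ^ (i + 1) * (ε + Y' * ε + ε * Y) := by
              have e2 : (2 : R) * (2 ^ i * Y') = 2 ^ i * 2 * Y' := by
                rw [← mul_assoc, ← hci 2]
              rw [e2, pow_succ, mul_add, mul_add]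
              simp only [mul_assoc]
              rw [two_mul ε, mul_add (2 ^ i)]
      · have h5 : ∀ x : R, (2 : R) ^ a * (x * ε) = 0 := fun x => by
          rw [← mul_assoc, hcomm x, mul_assoc, h4, mul_zero]
        rw [mul_add, mul_add, h4, h5, ← mul_assoc, h4, zero_mul]; simp
  obtain ⟨ε, h3, h4⟩ := key a
  rw [h4] at h3
  exact sub_eq_zero.1 h3

theorem seqKill {A : Type*} [AddCommGroup A] (n L a : ℕ) (hL : n ≤ 2 ^ L) (η : AddMonoid.End A)
    (h : (η - 1) ^ n = 0) (f : ℕ → A) (hf : ∀ j, f (j + 1) = f j + (η ^ (2 ^ j)) (f j))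
    (h0 : (2 ^ a) • f 0 = 0) : f (L + a) = 0 := by
  have h2 : ∀ j, (2 ^ a) • f j = 0 := by
    intro j
    induction j with
    | zero => exact h0
    | succ j ih => rw [hf, nsmul_add, ← map_nsmul, ih, map_zero, add_zero]
  have key : ∀ i, ∃ g : A, f (L + i) = (2 ^ i) • g ∧ (2 ^ a) • g = 0 := by
    intro i
    induction i with
    | zero => exact ⟨f (L + 0), by simp, h2 _⟩
    | succ i ih =>
      obtain ⟨g, h3, h4⟩ := ih
      have hLi : n ≤ 2 ^ (L + i) := hL.trans (Nat.pow_le_pow_right (by norm_num) (by omega))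
      obtain ⟨Y, hY⟩ := pow_two_pow n (L + i) hLi η h
      refine ⟨g + Y g, ?_, ?_⟩
      · have e1 : f (L + (i + 1)) = f (L + i) + (1 + 2 * Y) (f (L + i)) := by
          rw [← hY]; exact hf (L + i)
        have e2 : (1 + 2 * Y) (f (L + i)) = f (L + i) + 2 • (Y (f (L + i))) := by
          have : (2 : AddMonoid.End A) * Y = 2 • Y := by rw [nsmul_eq_mul]; rfl
          rw [this]; rfl
        rw [e1, e2, h3, map_nsmul, pow_succ, mul_nsmul, two_nsmul, two_nsmul, nsmul_add]
        abel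
      · rw [nsmul_add, ← map_nsmul, h4, map_zero, add_zero]
  obtain ⟨g, h3, h4⟩ := key a
  rw [h3, h4]

end T4

section T3

variable {R : Type*} [Ring R]

/-- even and odd parts of the powers of τ - 1 as polynomials in s = τ ^ 2 -/
def eo (s : R) : ℕ → R × R
  | 0 => (1, 0)
  | k + 1 => (s * (eo s k).2 - (eo s k).1, (eo s k).1 - (eo s k).2)

theorem eo_pow (s τ : R) (h : τ * τ = s) (k : ℕ) :
    (τ - 1) ^ k = (eo s k).1 + τ * (eo s k).2 := by
  induction k with
  | zero => simp [eo]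
  | succ k ih =>
    rw [pow_succ', ih, eo]
    simp only [sub_mul, mul_add, mul_sub, one_mul, ← mul_assoc, h]
    abel

theorem eo_comm (s x : R) (h : Commute x s) (k : ℕ) :
    Commute x (eo s k).1 ∧ Commute x (eo s k).2 := by
  induction k with
  | zero => exact ⟨Commute.one_right x, Commute.zero_right x⟩
  | succ k ih =>
    exact ⟨(h.mul_right ih.2).sub_right ih.1, ih.1.sub_right ih.2⟩

theorem odd_kill {A : Type*} [AddCommGroup A] (h2 : ∀ x : A, ∃ k : ℕ, (2 ^ k) • x = 0) {c : ℕ}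
    (hc : Odd c) {x : A} (h : c • x = 0) : x = 0 := by
  obtain ⟨k, hk⟩ := h2 x
  have h2 := addOrderOf_dvd_of_nsmul_eq_zero h
  have h3 := addOrderOf_dvd_of_nsmul_eq_zero hk
  have h4 : Nat.Coprime c (2 ^ k) := (Nat.Coprime.pow_right k (Nat.coprime_two_right.2 hc))
  have h5 := Nat.Coprime.eq_one_of_dvd (h4.coprime_dvd_left h2) h3
  exact AddMonoid.addOrderOf_eq_one_iff.1 h5

theorem twoPowFix {A : Type*} [AddCommGroup A] (h2 : ∀ x : A, ∃ k : ℕ, (2 ^ k) • x = 0)
    (n c : ℕ) (hn : 1 ≤ n) (hc : Odd c) (τ ρ σ : AddMonoid.End A) (hρσ : ρ * σ = 1)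
    (hσρ : σ * ρ = 1) (hρc : ρ ^ c = 1) (hτ : (τ - 1) ^ n = 0) (hτρ : τ * ρ = σ * τ) (x : A) :
    (2 ^ (2 * n - 1)) • ρ x = (2 ^ (2 * n - 1)) • x := by
  set s := τ * τ with hs
  have hρτρ : ρ * (τ * ρ) = τ := by rw [hτρ, ← mul_assoc, hρσ, one_mul]
  have hτσ : τ * σ = ρ * τ := by
    calc τ * σ = ρ * (τ * ρ) * σ := by rw [hρτρ]
      _ = ρ * τ * (ρ * σ) := by simp only [mul_assoc]
      _ = ρ * τ := by rw [hρσ, mul_one]
  have hρs : Commute ρ s := by
    show ρ * (τ * τ) = τ * τ * ρ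
    rw [mul_assoc τ, hτρ, ← mul_assoc τ σ, hτσ, mul_assoc]
  set τ1 := τ * (ρ * ρ) with hτ1
  have hτ1' : τ1 = σ * τ * ρ := by rw [hτ1, ← mul_assoc, hτρ]
  have hτ1s : τ1 * τ1 = s := by
    rw [hτ1]
    calc τ * (ρ * ρ) * (τ * (ρ * ρ)) = τ * (ρ * (ρ * (τ * ρ)) * ρ) := by simp only [mul_assoc]
      _ = τ * τ := by rw [hρτρ, mul_assoc ρ τ ρ, hρτρ]
  have hτ1n : (τ1 - 1) ^ n = 0 := by
    have h1 : τ1 - 1 = σ * (τ - 1) * ρ := by rw [hτ1', mul_sub, sub_mul, mul_one, hσρ]
    have h3 : ∀ k, (τ1 - 1) ^ k = σ * (τ - 1) ^ k * ρ := by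
      intro k
      induction k with
      | zero => simp [hσρ]
      | succ k ih =>
        rw [pow_succ, ih, h1, pow_succ]
        calc σ * (τ - 1) ^ k * ρ * (σ * (τ - 1) * ρ) =
            σ * (τ - 1) ^ k * (ρ * σ) * (τ - 1) * ρ := by simp only [mul_assoc]
          _ = σ * ((τ - 1) ^ k * (τ - 1)) * ρ := by rw [hρσ]; simp only [mul_assoc, one_mul]
    rw [h3, hτ]; simp
  set e := (eo s n).1 with he
  set o := (eo s n).2 with ho
  have k1 : e + τ * o = 0 := by rw [← hτ, eo_pow s τ rfl n]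
  have k2 : e + τ1 * o = 0 := by rw [← hτ1n, eo_pow s τ1 hτ1s n]
  have k3 : (-τ - 1) ^ n = e - τ * o := by
    rw [eo_pow s (-τ) (by rw [neg_mul_neg]) n]; rw [neg_mul, ← sub_eq_add_neg]
  have hρo : Commute ρ o := (eo_comm s ρ hρs n).2
  -- `τ` is injective
  have τinj : ∀ y : A, τ y = 0 → y = 0 := by
    intro y hy
    have h1 : ∀ k, ((τ - 1) ^ k) y = (-1) ^ k • y := by
      intro k
      induction k with
      | zero => simp
      | succ k ih =>
        rw [pow_succ']
        show (τ - 1) (((τ - 1) ^ k) y) = _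
        rw [ih, map_zsmul]
        have : (τ - 1) y = -y := by
          show τ y - y = -y
          rw [hy, zero_sub]
        rw [this, pow_succ, mul_smul]; simp
    have h3 := h1 n
    rw [hτ] at h3
    have h4 : (0 : AddMonoid.End A) y = 0 := rfl
    rw [h4] at h3
    rcases neg_one_pow_eq_or ℤ n with h5 | h5 <;> rw [h5] at h3 <;> simpa using h3.symm
  have ρρo : ∀ y, ρ (ρ (o y)) = o y := by
    intro y
    have h1 : τ * (ρ * ρ * o - o) = 0 := by
      have : τ * (ρ * ρ * o) = τ1 * o := by rw [hτ1, mul_assoc τ]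
      rw [mul_sub, this]
      have := k2.trans k1.symm
      rw [add_right_inj] at this
      rw [this, sub_self]
    have h3 : τ (ρ (ρ (o y)) - o y) = 0 := by
      have := congrArg (fun F : AddMonoid.End A => F y) h1
      exact this
    exact sub_eq_zero.1 (τinj _ h3)
  have ρo : ∀ y, ρ (o y) = o y := by
    intro y
    obtain ⟨d, hd⟩ := hc
    have h1 : ∀ k, (ρ ^ (2 * k)) (o y) = o y := by
      intro k
      induction k with
      | zero => simp
      | succ k ih =>
        rw [show 2 * (k + 1) = 2 * k + 1 + 1 by ring, pow_succ, pow_succ]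
        show (ρ ^ (2 * k)) (ρ (ρ (o y))) = o y
        rw [ρρo, ih]
    have h3 : (ρ ^ (2 * (d + 1))) (o y) = ρ (o y) := by
      rw [show 2 * (d + 1) = (2 * d + 1) + 1 by ring, ← hd, pow_succ, hρc, one_mul]
    rw [← h3, h1]
  have ρko : ∀ (k : ℕ) y, (ρ ^ k) (o y) = o y := by
    intro k y
    induction k with
    | zero => simp
    | succ k ih =>
      rw [pow_succ]
      show (ρ ^ k) (ρ (o y)) = o y
      rw [ρo, ih]
  set Nm : AddMonoid.End A := ∑ k ∈ Finset.range c, ρ ^ k with hNm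
  have ρN : ρ * Nm = Nm := by
    have h1 : ρ * Nm = ∑ k ∈ Finset.range c, ρ ^ (k + 1) := by
      rw [hNm, Finset.mul_sum]
      exact Finset.sum_congr rfl fun k _ => by rw [pow_succ']
    have h3 := Finset.sum_range_succ' (fun k => ρ ^ k) c
    have h4 := Finset.sum_range_succ (fun k => ρ ^ k) c
    rw [h3] at h4
    simp only [pow_zero, hρc] at h4
    rw [h1]
    exact add_right_cancel h4
  have ρkN : ∀ k : ℕ, ρ ^ k * Nm = Nm := by
    intro k
    induction k with
    | zero => simp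
    | succ k ih => rw [pow_succ, mul_assoc, ρN, ih]
  have NN : Nm * Nm = c • Nm := by
    conv_lhs => rw [hNm, Finset.sum_mul]
    rw [Finset.sum_congr rfl fun k _ => ρkN k]
    simp
  have main : ∀ m : A, Nm m = 0 → (2 ^ (2 * n - 1)) • m = 0 := by
    intro m hm
    have h1 : o m = 0 := by
      apply odd_kill h2 hc
      have h3 : (o * Nm) m = c • o m := by
        have h4 : o * Nm = c • o := by
          refine AddMonoidHom.ext fun y => ?_
          have h5 : Nm * o = o * Nm := by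
            rw [hNm, Finset.sum_mul, Finset.mul_sum]
            exact Finset.sum_congr rfl fun k _ => (hρo.pow_left k).eq
          rw [← h5]
          show Nm (o y) = c • (o y)
          have h6 : Nm (o y) = ∑ k ∈ Finset.range c, (ρ ^ k) (o y) := by
            rw [hNm]; exact AddMonoidHom.finsetSum_apply _ _ _
          rw [h6, Finset.sum_congr rfl fun k _ => ρko k y]
          simp
        rw [h4]; rfl
      rw [← h3]
      show o (Nm m) = 0
      rw [hm, map_zero]
    have h3 : e m = 0 := by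
      have h4 := congrArg (fun F : AddMonoid.End A => F m) k1
      have h5 : e m + τ (o m) = 0 := h4
      rwa [h1, map_zero, add_zero] at h5
    have h4 : ((τ + 1) ^ n) m = 0 := by
      have h5 : ((-τ - 1) ^ n) m = 0 := by
        rw [k3]
        show e m - τ (o m) = 0
        rw [h1, h3, map_zero, sub_zero]
      have h6 : (τ + 1) ^ n = (-1) ^ n * (-τ - 1) ^ n := by
        rw [← (Commute.neg_one_left (-τ - 1)).mul_pow]
        congr 1
        noncomm_ring
      rw [h6]
      show ((-1 : AddMonoid.End A) ^ n) (((-τ - 1) ^ n) m) = 0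
      rw [h5, map_zero]
    -- binomial theorem
    have hcm : Commute (τ + 1) (1 - τ) := by
      show (τ + 1) * (1 - τ) = (1 - τ) * (τ + 1)
      noncomm_ring
    have hb : ((2 : AddMonoid.End A) ^ (2 * n - 1)) m = 0 := by
      have h5 : (2 : AddMonoid.End A) = (τ + 1) + (1 - τ) := by
        rw [← one_add_one_eq_two]; abel
      rw [h5, hcm.add_pow]
      have h6 : ∀ F : ℕ → AddMonoid.End A, ∀ S : Finset ℕ, (∀ k ∈ S, F k m = 0) →
          (∑ k ∈ S, F k) m = 0 := by
        intro F S hF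
        rw [show (∑ k ∈ S, F k) m = ∑ k ∈ S, F k m from AddMonoidHom.finsetSum_apply _ _ _]
        exact Finset.sum_eq_zero hF
      apply h6
      intro k hk
      rw [Finset.mem_range] at hk
      by_cases hkn : n ≤ k
      · have h7 : (τ + 1) ^ k * (1 - τ) ^ (2 * n - 1 - k) * ((2 * n - 1).choose k : AddMonoid.End A)
            = ((2 * n - 1).choose k : AddMonoid.End A) * ((1 - τ) ^ (2 * n - 1 - k) *
              (τ + 1) ^ (k - n) * (τ + 1) ^ n) := by
          have h8 : (τ + 1) ^ (k - n) * (τ + 1) ^ n = (τ + 1) ^ k := by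
            rw [← pow_add]; congr 1; omega
          rw [mul_assoc ((1 - τ) ^ (2 * n - 1 - k)), h8, ((hcm.pow_pow k (2 * n - 1 - k)).eq),
            (Nat.cast_commute _ _).eq]
        rw [h7]
        show ((2 * n - 1).choose k : AddMonoid.End A) (((1 - τ) ^ (2 * n - 1 - k) *
              (τ + 1) ^ (k - n)) (((τ + 1) ^ n) m)) = 0
        rw [h4, map_zero, map_zero]
      · have h7 : (1 - τ) ^ (2 * n - 1 - k) = 0 := by
          have h8 : (1 - τ) ^ n = 0 := by
            have : (1 - τ) = -(τ - 1) := by abel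
            rw [this, neg_pow, hτ, mul_zero]
          have h9 : 2 * n - 1 - k = n + (n - 1 - k) := by omega
          rw [h9, pow_add, h8, zero_mul]
        rw [h7]; simp
    have h5 : ((2 : AddMonoid.End A) ^ (2 * n - 1)) m = (2 ^ (2 * n - 1)) • m := by
      have : (2 : AddMonoid.End A) ^ (2 * n - 1) = (2 ^ (2 * n - 1)) • (1 : AddMonoid.End A) := by
        rw [nsmul_eq_mul]; push_cast; rw [mul_one]
      rw [this]; rfl
    rw [← h5]; exact hb
  -- conclusion
  have h3 : Nm (c • x - Nm x) = 0 := by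
    rw [map_sub, map_nsmul]
    have : Nm (Nm x) = c • Nm x := by
      show (Nm * Nm) x = _
      rw [NN]; rfl
    rw [this, sub_self]
  have h4 := main _ h3
  rw [nsmul_sub, sub_eq_zero] at h4
  have h5 : ρ (Nm x) = Nm x := by
    show (ρ * Nm) x = Nm x
    rw [ρN]
  have h6 : (2 ^ (2 * n - 1)) • (c • ρ x) = (2 ^ (2 * n - 1)) • (c • x) := by
    rw [← map_nsmul, ← map_nsmul, h4, map_nsmul, h5]
  have h7 : c • ((2 ^ (2 * n - 1)) • ρ x - (2 ^ (2 * n - 1)) • x) = 0 := by
    rw [nsmul_sub, smul_comm c, smul_comm c, h6, sub_self]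
  exact sub_eq_zero.1 (odd_kill h2 hc h7)

end T3

end E1ad.helper89
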