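import Pool.Agent.Lib.MP_1ad17e_al_helper89.AL
import Pool.Agent.Lib.MP_1ad17e_al_helper49.Crit

/-! T6 of MP_1ad17e_al: the key lemma. -/

namespace E1ad.helper89

open Subgroup
open scoped commutatorElement

section Gamma

variable {G : Type*} [Group G] {T : Subgroup G} {Γ : ℕ → Subgroup G}

theorem Gamma_le (hΓ : ∀ i, Γ (i + 1) ≤ Γ i) {i j : ℕ} (h : i ≤ j) : Γ j ≤ Γ i :=
  antitone_nat_of_succ_le hΓ h

theorem Gamma_conj (hΓ : ∀ i, Γ (i + 1) ≤ Γ i)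
    (hΓT : ∀ i, ∀ x ∈ Γ i, ∀ y ∈ T, ⁅x, y⁆ ∈ Γ (i + 1)) {i : ℕ} {x y : G} (hx : x ∈ Γ i)
    (hy : y ∈ T) : y * x * y⁻¹ ∈ Γ i := by
  have h1 : ⁅x, y⁆ ∈ Γ i := hΓ i (hΓT i x hx y hy)
  have h2 : y * x * y⁻¹ = (⁅x, y⁆)⁻¹ * x := by
    simp only [commutatorElement_def]; group
  rw [h2]
  exact (Γ i).mul_mem ((Γ i).inv_mem h1) hx

theorem Gamma_comm (hΓT : ∀ i, ∀ x ∈ Γ i, ∀ y ∈ T, ⁅x, y⁆ ∈ Γ (i + 1)) {i : ℕ} {x y : G}
    (hx : x ∈ Γ i) (hy : y ∈ T) : ⁅y, x⁆ ∈ Γ (i + 1) := by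
  rw [← commutatorElement_inv]
  exact (Γ (i + 1)).inv_mem (hΓT i x hx y hy)

/-- `r ∈ A Γ_i` -/
def InA (A : Subgroup G) (Γ : ℕ → Subgroup G) (r : G) (i : ℕ) : Prop := ∃ a ∈ A, a⁻¹ * r ∈ Γ i

theorem InA_mul (hΓ : ∀ i, Γ (i + 1) ≤ Γ i)
    (hΓT : ∀ i, ∀ x ∈ Γ i, ∀ y ∈ T, ⁅x, y⁆ ∈ Γ (i + 1)) {A : Subgroup G} (hAT : A ≤ T)
    {r a : G} {i : ℕ} (hr : InA A Γ r i) (ha : a ∈ A) : InA A Γ (r * a) i := by
  obtain ⟨b, hb, hbr⟩ := hr
  refine ⟨b * a, A.mul_mem hb ha, ?_⟩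
  have h := Gamma_conj hΓ hΓT hbr (hAT (A.inv_mem ha))
  have e : (b * a)⁻¹ * (r * a) = a⁻¹ * (b⁻¹ * r) * a⁻¹⁻¹ := by group
  rw [e]; exact h

/-- the step in phase B -/
theorem InA_comm (hΓ : ∀ i, Γ (i + 1) ≤ Γ i)
    (hΓT : ∀ i, ∀ x ∈ Γ i, ∀ y ∈ T, ⁅x, y⁆ ∈ Γ (i + 1)) {A Q : Subgroup G} (hAQ : A ≤ Q)
    (hQT : Q ≤ T) (hAD : ∀ d ∈ Q, ∀ x ∈ A, d * x * d⁻¹ ∈ A)
    (hsq : ∀ r ∈ Q, (∀ x ∈ A, r * x = x * r) → r ^ 2 ∈ A) (j : ℕ) :
    ∀ Y ∈ Q, ∀ r ∈ Q, (∀ x ∈ A, r * x = x * r) → ∀ i, InA A Γ r i →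
      InA A Γ ⁅Y ^ (2 ^ j), r⁆ (i + 2 ^ j) := by
  induction j with
  | zero =>
    rintro Y hY r hr hrc i ⟨a, ha, har⟩
    rw [pow_zero, pow_one]
    have h1 : ⁅Y, a⁆ ∈ A := by
      have := A.mul_mem (hAD Y hY a ha) (A.inv_mem ha)
      simpa [commutatorElement_def] using this
    have h2 : ⁅Y, a⁻¹ * r⁆ ∈ Γ (i + 1) := Gamma_comm hΓT har (hQT hY)
    refine ⟨⁅Y, a⁆, h1, ?_⟩
    have h3 : ⁅Y, a⁆⁻¹ * ⁅Y, r⁆ = a * ⁅Y, a⁻¹ * r⁆ * a⁻¹ := by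
      simp only [commutatorElement_def]; group
    rw [h3]
    exact Gamma_conj hΓ hΓT h2 (hQT (hAQ ha))
  | succ j ih =>
    intro Y hY r hr hrc i hri
    set Z := Y ^ (2 ^ j) with hZ
    have hZQ : Z ∈ Q := Q.pow_mem hY _
    set h := ⁅Z, r⁆ with hh
    have hcom : ∀ Y ∈ Q, ∀ r ∈ Q, (∀ x ∈ A, r * x = x * r) → ∀ x ∈ A,
        (Y * r * Y⁻¹) * x = x * (Y * r * Y⁻¹) := by
      intro Y hY r hr hrc x hx
      have h1 := hAD Y⁻¹ (Q.inv_mem hY) x hx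
      have h2 := hrc _ h1
      calc (Y * r * Y⁻¹) * x = Y * (r * (Y⁻¹ * x * Y⁻¹⁻¹)) * Y⁻¹ := by group
        _ = Y * ((Y⁻¹ * x * Y⁻¹⁻¹) * r) * Y⁻¹ := by rw [h2]
        _ = x * (Y * r * Y⁻¹) := by group
    have hhQ : h ∈ Q := by
      rw [hh, commutatorElement_def]
      exact Q.mul_mem (Q.mul_mem (Q.mul_mem hZQ hr) (Q.inv_mem hZQ)) (Q.inv_mem hr)
    have hhc : ∀ x ∈ A, h * x = x * h := by
      intro x hx
      have h1 := hcom Z hZQ r hr hrc x hx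
      have h2 : r⁻¹ * x = x * r⁻¹ := by
        have := hrc x hx
        calc r⁻¹ * x = r⁻¹ * (x * r) * r⁻¹ := by group
          _ = r⁻¹ * (r * x) * r⁻¹ := by rw [this]
          _ = x * r⁻¹ := by group
      rw [hh, commutatorElement_def]
      calc Z * r * Z⁻¹ * r⁻¹ * x = (Z * r * Z⁻¹) * (r⁻¹ * x) := by group
        _ = (Z * r * Z⁻¹) * (x * r⁻¹) := by rw [h2]
        _ = ((Z * r * Z⁻¹) * x) * r⁻¹ := by group
        _ = (x * (Z * r * Z⁻¹)) * r⁻¹ := by rw [h1]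
        _ = x * (Z * r * Z⁻¹ * r⁻¹) := by group
    have h1 : InA A Γ h (i + 2 ^ j) := ih Y hY r hr hrc i hri
    have h2 : InA A Γ ⁅Z, h⁆ (i + 2 ^ j + 2 ^ j) := ih Y hY h hhQ hhc _ h1
    have h3 : ⁅Y ^ (2 ^ (j + 1)), r⁆ = ⁅Z, h⁆ * h ^ 2 := by
      have : Y ^ (2 ^ (j + 1)) = Z * Z := by rw [hZ, pow_succ 2 j, pow_mul, sq]
      rw [this, hh]
      simp only [commutatorElement_def, sq]; group
    have h4 : i + 2 ^ (j + 1) = i + 2 ^ j + 2 ^ j := by rw [pow_succ]; ring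
    rw [h3, h4]
    exact InA_mul hΓ hΓT (hAQ.trans hQT) h2 (hsq h hhQ hhc)

end Gamma

section Main

variable {G : Type*} [Group G]

/-- conjugation by a finite group of `p`-elements: `normalizer` membership from one inclusion -/
theorem mem_norm_of_finite {Q : Subgroup G} [Finite Q] {t : G} (h : ∀ q ∈ Q, t * q * t⁻¹ ∈ Q) :
    t ∈ normalizer (Q : Set G) := by
  rw [mem_normalizer_iff]
  intro x
  constructor
  · exact h x
  · intro hx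
    let f : Q → Q := fun q => ⟨t * q * t⁻¹, h q q.2⟩
    have hf : Function.Injective f := by
      intro a b hab
      have : t * (a : G) * t⁻¹ = t * b * t⁻¹ := congrArg Subtype.val hab
      apply Subtype.ext
      simpa using this
    obtain ⟨q, hq⟩ := (Finite.injective_iff_surjective.1 hf) ⟨t * x * t⁻¹, hx⟩
    have : t * (q : G) * t⁻¹ = t * x * t⁻¹ := congrArg Subtype.val hq
    have h2 : (q : G) = x := by simpa using this
    rw [← h2]; exact q.2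

theorem keyLemma (T : Subgroup G) [Finite T] (hT2 : IsPGroup 2 T)
    (n L : ℕ) (hn : 1 ≤ n) (hL : n < 2 ^ L) (Γ : ℕ → Subgroup G) (hΓ0 : Γ 0 = T)
    (hΓ : ∀ i, Γ (i + 1) ≤ Γ i) (hΓT : ∀ i, ∀ x ∈ Γ i, ∀ y ∈ T, ⁅x, y⁆ ∈ Γ (i + 1))
    (hΓn : Γ n = ⊥) (Q : Subgroup G) (hQT : Q ≤ T) (t ρ : G) (htT : t ∈ T)
    (htQ : ∀ q ∈ Q, t * q * t⁻¹ ∈ Q) (hρQ : ∀ q ∈ Q, ρ * q * ρ⁻¹ ∈ Q) (c : ℕ) (hc : Odd c)
    (hρc : ρ ^ c = 1) (htρ : t * ρ * t⁻¹ = ρ⁻¹) (q : G) (hq : q ∈ Q) :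
    ρ * q ^ (2 ^ (3 * L + 2 * (2 * n - 1))) = q ^ (2 ^ (3 * L + 2 * (2 * n - 1))) * ρ := by
  have hQfin : Finite Q := Finite.of_injective _ (Subgroup.inclusion_injective hQT)
  have hQ2 : IsPGroup 2 Q := hT2.to_le hQT
  set D : Subgroup G := normalizer (Q : Set G) with hD
  have hDmem : ∀ d ∈ D, ∀ q ∈ Q, d * q * d⁻¹ ∈ Q := fun d hd q hq =>
    (mem_normalizer_iff.1 hd q).1 hq
  have hQD : Q ≤ D := le_normalizer
  have htD : t ∈ D := mem_norm_of_finite htQ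
  have hρD : ρ ∈ D := mem_norm_of_finite hρQ
  obtain ⟨A, hAQ, hAc, hAD, hAR⟩ := E1ad.helper49.crit Q D hQ2 hQD hDmem
  have hAT : A ≤ T := hAQ.trans hQT
  have hA2 : IsPGroup 2 A := hQ2.to_le hAQ
  let iA : CommGroup A :=
    { (inferInstance : Group A) with mul_comm := fun x y => Subtype.ext (hAc x x.2 y y.2) }
  let v : Additive A → G := fun m => ((Additive.toMul m : A) : G)
  have v_inj : ∀ {x y : Additive A}, v x = v y → x = y := fun {x y} h =>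
    Additive.toMul.injective (Subtype.ext h)
  have v_mem : ∀ x : Additive A, v x ∈ A := fun x => (Additive.toMul x : A).2
  have v_add : ∀ x y : Additive A, v (x + y) = v x * v y := fun x y => rfl
  have v_sub : ∀ x y : Additive A, v (x - y) = v x * (v y)⁻¹ := fun x y => by
    rw [sub_eq_add_neg]; rfl
  have v_zero : v 0 = 1 := rfl
  have v_nsmul : ∀ (k : ℕ) (x : Additive A), v (k • x) = (v x) ^ k := by
    intro k x
    induction k with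
    | zero => simp [v_zero]
    | succ k ih => rw [succ_nsmul, v_add, ih, pow_succ]
  let φ : D →* AddMonoid.End (Additive A) :=
    { toFun := fun d => MonoidHom.toAdditive
        { toFun := fun x : A => (⟨d * x * (d : G)⁻¹, hAD d d.2 x x.2⟩ : A)
          map_one' := Subtype.ext (by simp)
          map_mul' := fun x y => Subtype.ext (by simp) }
      map_one' := AddMonoidHom.ext fun x => v_inj (by
        show (1 : G) * v x * (1 : G)⁻¹ = v x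
        simp)
      map_mul' := fun d e => AddMonoidHom.ext fun x => v_inj (by
        show ((d : G) * e) * v x * ((d : G) * e)⁻¹ = d * (e * v x * (e : G)⁻¹) * (d : G)⁻¹
        group) }
  have vφ : ∀ (d : D) (x : Additive A), v (φ d x) = d * v x * (d : G)⁻¹ := fun d x => rfl
  -- nilpotency
  have nil : ∀ d : D, (d : G) ∈ T → (φ d - 1) ^ n = 0 := by
    intro d hd
    have key : ∀ i : ℕ, ∀ m : Additive A, v (((φ d - 1) ^ i) m) ∈ Γ i := by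
      intro i
      induction i with
      | zero => intro m; rw [hΓ0]; exact hAT (v_mem _)
      | succ i ih =>
        intro m
        rw [pow_succ']
        have h1 := ih m
        have h2 : v (((φ d - 1) * (φ d - 1) ^ i) m) = ⁅(d : G), v (((φ d - 1) ^ i) m)⁆ := by
          show v ((φ d) (((φ d - 1) ^ i) m) - ((φ d - 1) ^ i) m) = _
          rw [v_sub, vφ, commutatorElement_def]
        rw [h2]
        exact Gamma_comm hΓT h1 hd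
    refine AddMonoidHom.ext fun m => v_inj ?_
    have := key n m
    rw [hΓn, mem_bot] at this
    exact this
  have two : ∀ x : Additive A, ∃ k : ℕ, (2 ^ k) • x = 0 := by
    intro x
    obtain ⟨k, hk⟩ := hA2 (Additive.toMul x)
    exact ⟨k, hk⟩
  set dt : D := ⟨t, htD⟩ with hdt
  set dρ : D := ⟨ρ, hρD⟩ with hdρ
  have ρσ : φ dρ * φ dρ⁻¹ = 1 := by rw [← map_mul, mul_inv_cancel, map_one]
  have σρ : φ dρ⁻¹ * φ dρ = 1 := by rw [← map_mul, inv_mul_cancel, map_one]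
  have hρc' : φ dρ ^ c = 1 := by
    rw [← map_pow]
    have : dρ ^ c = 1 := Subtype.ext hρc
    rw [this, map_one]
  have htρ' : φ dt * φ dρ = φ dρ⁻¹ * φ dt := by
    rw [← map_mul, ← map_mul]
    congr 1
    apply Subtype.ext
    show t * ρ = ρ⁻¹ * t
    rw [← htρ]; group
  set a := 2 * n - 1 with ha
  have fixρ : ∀ x : Additive A, (2 ^ a) • (φ dρ x) = (2 ^ a) • x := fun x =>
    twoPowFix two n c hn hc (φ dt) (φ dρ) (φ dρ⁻¹) ρσ σρ hρc' (nil dt htT) htρ' x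
  have fixσ : ∀ x : Additive A, (2 ^ a) • (φ dρ⁻¹ x) = (2 ^ a) • x := by
    intro x
    rw [← fixρ (φ dρ⁻¹ x)]
    congr 1
    show (φ dρ * φ dρ⁻¹) x = x
    rw [ρσ]; rfl
  -- conjugation by `ρ⁻¹`
  have hρQ' : ∀ x ∈ Q, ρ⁻¹ * x * ρ ∈ Q := by
    intro x hx
    have := hDmem ρ⁻¹ (D.inv_mem hρD) x hx
    rwa [inv_inv] at this
  -- phase A
  set y := q ^ (2 ^ (L + a)) with hy
  have hyQ : y ∈ Q := Q.pow_mem hq _
  have phaseA : ∀ x ∈ A, (ρ⁻¹ * y * ρ) * x * (ρ⁻¹ * y * ρ)⁻¹ = y * x * y⁻¹ := by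
    set dq : D := ⟨q, hQD hq⟩ with hdq
    set dq' : D := dρ⁻¹ * dq * dρ with hdq'
    have h1 : (φ dq - 1) ^ n = 0 := nil dq (hQT hq)
    have h2 : (φ dq' - 1) ^ n = 0 := nil dq' (hQT (hρQ' q hq))
    have h3 : (2 : AddMonoid.End (Additive A)) ^ a * (φ dq' - φ dq) = 0 := by
      refine AddMonoidHom.ext fun x => ?_
      have e1 : ((2 : AddMonoid.End (Additive A)) ^ a * (φ dq' - φ dq)) x =
          (2 ^ a) • ((φ dq' - φ dq) x) := by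
        have : (2 : AddMonoid.End (Additive A)) ^ a * (φ dq' - φ dq) =
            (2 ^ a) • (φ dq' - φ dq) := by
          rw [nsmul_eq_mul]; push_cast; rfl
        rw [this]; rfl
      have e2 : (φ dq' - φ dq) x = φ dρ⁻¹ (φ dq (φ dρ x)) - φ dq x := by
        rw [hdq', map_mul, map_mul]; rfl
      have e3 : (2 ^ a) • (φ dρ⁻¹ (φ dq (φ dρ x)) - φ dq x) = 0 := by
        rw [nsmul_sub, fixσ, ← map_nsmul (φ dq), fixρ, map_nsmul, sub_self]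
      exact (e1.trans (congrArg _ e2)).trans e3
    have h4 := powEq n L a hL.le (φ dq) (φ dq') h1 h2 h3
    rw [← map_pow, ← map_pow] at h4
    intro x hx
    have h5 : φ (dq' ^ (2 ^ (L + a))) (Additive.ofMul (⟨x, hx⟩ : A)) =
        φ (dq ^ (2 ^ (L + a))) (Additive.ofMul (⟨x, hx⟩ : A)) := by rw [h4]
    have h6 := congrArg v h5
    rw [vφ, vφ] at h6
    have h7 : ((dq' ^ (2 ^ (L + a)) : D) : G) = ρ⁻¹ * y * ρ := by
      have : dq' ^ (2 ^ (L + a)) = dρ⁻¹ * dq ^ (2 ^ (L + a)) * dρ := by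
        have h8 := conj_pow (a := dρ⁻¹) (b := dq) (i := 2 ^ (L + a))
        rw [inv_inv] at h8
        exact h8
      rw [this]; rfl
    have h8 : ((dq ^ (2 ^ (L + a)) : D) : G) = y := rfl
    rw [h7, h8] at h6
    exact h6
  have phaseA' : ∀ k : ℕ, ∀ x ∈ A, (ρ⁻¹ * y ^ k * ρ) * x * (ρ⁻¹ * y ^ k * ρ)⁻¹ =
      y ^ k * x * (y ^ k)⁻¹ := by
    intro k
    induction k with
    | zero => intro x _; simp
    | succ k ih =>
      intro x hx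
      have h1 := phaseA x hx
      have h2 := ih _ (hAD y (hQD hyQ) x hx)
      calc (ρ⁻¹ * y ^ (k + 1) * ρ) * x * (ρ⁻¹ * y ^ (k + 1) * ρ)⁻¹
          = (ρ⁻¹ * y ^ k * ρ) * ((ρ⁻¹ * y * ρ) * x * (ρ⁻¹ * y * ρ)⁻¹) *
            (ρ⁻¹ * y ^ k * ρ)⁻¹ := by rw [pow_succ]; group
        _ = y ^ k * (y * x * y⁻¹) * (y ^ k)⁻¹ := by rw [h1, h2]
        _ = y ^ (k + 1) * x * (y ^ (k + 1))⁻¹ := by rw [pow_succ]; group
  -- phase B
  let r : ℕ → G := fun j => (y ^ (2 ^ j))⁻¹ * (ρ⁻¹ * y ^ (2 ^ j) * ρ)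
  have rQ : ∀ j, r j ∈ Q := fun j =>
    Q.mul_mem (Q.inv_mem (Q.pow_mem hyQ _)) (hρQ' _ (Q.pow_mem hyQ _))
  have rc : ∀ j, ∀ x ∈ A, r j * x = x * r j := by
    intro j x hx
    have h1 := phaseA' (2 ^ j) x hx
    have h2 : r j * x * (r j)⁻¹ = x := by
      calc r j * x * (r j)⁻¹ = (y ^ (2 ^ j))⁻¹ * ((ρ⁻¹ * y ^ (2 ^ j) * ρ) * x *
            (ρ⁻¹ * y ^ (2 ^ j) * ρ)⁻¹) * y ^ (2 ^ j) := by
              show (y ^ (2 ^ j))⁻¹ * (ρ⁻¹ * y ^ (2 ^ j) * ρ) * x *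
                ((y ^ (2 ^ j))⁻¹ * (ρ⁻¹ * y ^ (2 ^ j) * ρ))⁻¹ = _
              group
        _ = x := by rw [h1]; group
    calc r j * x = (r j * x * (r j)⁻¹) * r j := by group
      _ = x * r j := by rw [h2]
  have rstep' : ∀ j, r (j + 1) = (y ^ (2 ^ j))⁻¹ * r j * y ^ (2 ^ j) * r j := by
    intro j
    show (y ^ (2 ^ (j + 1)))⁻¹ * (ρ⁻¹ * y ^ (2 ^ (j + 1)) * ρ) =
      (y ^ (2 ^ j))⁻¹ * ((y ^ (2 ^ j))⁻¹ * (ρ⁻¹ * y ^ (2 ^ j) * ρ)) * y ^ (2 ^ j) *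
        ((y ^ (2 ^ j))⁻¹ * (ρ⁻¹ * y ^ (2 ^ j) * ρ))
    have : y ^ (2 ^ (j + 1)) = y ^ (2 ^ j) * y ^ (2 ^ j) := by
      rw [← pow_add, pow_succ]; congr 1; ring
    rw [this]; group
  have rstep : ∀ j, r (j + 1) = ⁅(y⁻¹) ^ (2 ^ j), r j⁆ * r j ^ 2 := by
    intro j
    rw [rstep', inv_pow, commutatorElement_def, sq]; group
  have hAR2 : ∀ r ∈ Q, (∀ x ∈ A, r * x = x * r) → r ^ 2 ∈ A := fun r hr hrc =>
    (hAR r hr r hr hrc hrc).1
  have phaseB : ∀ j, InA A Γ (r j) (2 ^ j - 1) := by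
    intro j
    induction j with
    | zero =>
      refine ⟨1, A.one_mem, ?_⟩
      have : 2 ^ 0 - 1 = 0 := rfl
      rw [this, hΓ0, inv_one, one_mul]
      exact hQT (rQ 0)
    | succ j ih =>
      have h1 := InA_comm hΓ hΓT hAQ hQT (fun d hd => hAD d (hQD hd)) hAR2 j y⁻¹ (Q.inv_mem hyQ)
        (r j) (rQ j) (rc j) _ ih
      have h2 : 2 ^ (j + 1) - 1 = 2 ^ j - 1 + 2 ^ j := by
        have : 1 ≤ 2 ^ j := Nat.one_le_two_pow
        rw [pow_succ]; omega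
      rw [rstep, h2]
      exact InA_mul hΓ hΓT hAT h1 (hAR2 _ (rQ j) (rc j))
  have rA : ∀ j, L ≤ j → r j ∈ A := by
    intro j hj
    obtain ⟨b, hb, hbr⟩ := phaseB j
    have h1 : n ≤ 2 ^ j - 1 := by
      have : 2 ^ L ≤ 2 ^ j := Nat.pow_le_pow_right (by norm_num) hj
      omega
    have h2 := Gamma_le hΓ h1 hbr
    rw [hΓn, mem_bot] at h2
    have h3 : r j = b := by
      calc r j = b * (b⁻¹ * r j) := by group
        _ = b := by rw [h2, mul_one]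
    rw [h3]; exact hb
  -- phase C
  set z := y ^ (2 ^ L) with hz
  have hzQ : z ∈ Q := Q.pow_mem hyQ _
  have zpow : ∀ j, z ^ (2 ^ j) = y ^ (2 ^ (L + j)) := by
    intro j; rw [hz, ← pow_mul, ← pow_add]
  let f : ℕ → Additive A := fun j => Additive.ofMul (⟨r (L + j), rA _ (Nat.le_add_right _ _)⟩ : A)
  have vf : ∀ j, v (f j) = r (L + j) := fun j => rfl
  set dz : D := ⟨z⁻¹, hQD (Q.inv_mem hzQ)⟩ with hdz
  have hη : (φ dz - 1) ^ n = 0 := nil dz (hQT (Q.inv_mem hzQ))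
  have hf : ∀ j, f (j + 1) = f j + (φ dz ^ (2 ^ j)) (f j) := by
    intro j
    rw [add_comm (f j)]
    apply v_inj
    rw [v_add, ← map_pow, vφ, vf, vf]
    have h1 : ((dz ^ (2 ^ j) : D) : G) = (y ^ (2 ^ (L + j)))⁻¹ := by
      show z⁻¹ ^ (2 ^ j) = _
      rw [inv_pow, zpow]
    rw [h1, inv_inv]
    exact rstep' (L + j)
  have h0 : (2 ^ a) • f 0 = 0 := by
    let U : ℕ → Additive A := fun k => Nat.rec 0 (fun _ x => f 0 + φ dρ⁻¹ x) k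
    have U0 : U 0 = 0 := rfl
    have Us : ∀ k, U (k + 1) = f 0 + φ dρ⁻¹ (U k) := fun k => rfl
    have vU : ∀ k, v (U k) = z⁻¹ * ((ρ⁻¹) ^ k * z * ρ ^ k) := by
      intro k
      induction k with
      | zero => rw [U0, v_zero]; simp
      | succ k ih =>
        rw [Us, v_add, vφ, ih, vf]
        show (z⁻¹ * (ρ⁻¹ * z * ρ)) * (ρ⁻¹ * (z⁻¹ * (ρ⁻¹ ^ k * z * ρ ^ k)) * ρ⁻¹⁻¹) =
          z⁻¹ * (ρ⁻¹ ^ (k + 1) * z * ρ ^ (k + 1))
        rw [pow_succ' ρ⁻¹, pow_succ ρ]; group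
    have aU : ∀ k, (2 ^ a) • U k = k • ((2 ^ a) • f 0) := by
      intro k
      induction k with
      | zero => rw [U0]; simp
      | succ k ih => rw [Us, nsmul_add, fixσ, ih, succ_nsmul, add_comm]
    have Uc : U c = 0 := by
      apply v_inj
      rw [vU, inv_pow, hρc]; simp [v_zero]
    have h1 : c • ((2 ^ a) • f 0) = 0 := by rw [← aU, Uc, nsmul_zero]
    obtain ⟨k, hk⟩ := two ((2 ^ a) • f 0)
    have h2 := addOrderOf_dvd_of_nsmul_eq_zero h1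
    have h3 := addOrderOf_dvd_of_nsmul_eq_zero hk
    have h4 : Nat.Coprime c (2 ^ k) := (Nat.Coprime.pow_right k (Nat.coprime_two_right.2 hc))
    have h5 := Nat.Coprime.eq_one_of_dvd (h4.coprime_dvd_left h2) h3
    exact AddMonoid.addOrderOf_eq_one_iff.1 h5
  have hkill := seqKill n L a hL.le (φ dz) hη f hf h0
  have h1 : r (L + (L + a)) = 1 := by
    have := congrArg v hkill
    rwa [vf, v_zero] at this
  have h2 : y ^ (2 ^ (L + (L + a))) = q ^ (2 ^ (3 * L + 2 * a)) := by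
    rw [hy, ← pow_mul, ← pow_add]; congr 2; ring
  have h3 : (y ^ (2 ^ (L + (L + a))))⁻¹ * (ρ⁻¹ * y ^ (2 ^ (L + (L + a))) * ρ) = 1 := h1
  rw [h2] at h3
  set w := q ^ (2 ^ (3 * L + 2 * a)) with hw
  calc ρ * w = ρ * (w * 1) := by rw [mul_one]
    _ = ρ * (w * (w⁻¹ * (ρ⁻¹ * w * ρ))) := by rw [h3]
    _ = w * ρ := by group

end Main

end E1ad.helper89
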